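import Pool.Agent.R496.FP.LD
import Pool.Agent.R496.FP.UP

/-!
# Products of shifts of the form: local densities
-/

set_option autoImplicit false
open Finset

namespace Pool.Agent.NH18.PC

open Pool.Agent.W65.FS
open Pool.Agent.R496.FP

/-- the product of the shifts `p + u` -/
def fU (U : Finset ℤ) (X : Fin 4 → ℤ) : ℤ := ∏ u ∈ U, (pf X + u)

lemma fU_congr (U : Finset ℤ) (l : ℕ) (X Y : Fin 4 → ℤ) (h : ∀ i, (l : ℤ) ∣ X i - Y i) :
    (l : ℤ) ∣ fU U X - fU U Y := by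
  rw [← ZMod.intCast_zmod_eq_zero_iff_dvd]
  have h1 : ((pf X : ℤ) : ZMod l) = ((pf Y : ℤ) : ZMod l) := by
    have := (ZMod.intCast_zmod_eq_zero_iff_dvd _ l).2 (pf_congr l X Y h)
    push_cast at this
    exact sub_eq_zero.1 this
  unfold fU
  push_cast
  rw [h1, sub_self]

lemma Bl_card_U (U : Finset ℤ) (l : ℕ) (hl : l.Prime) (hl2 : l ≠ 2) (n : ℕ) :
    (Bl (fU U) n l).card ≤ 4 * U.card * l ^ 2 := by
  classical
  have hlp : Prime (l : ℤ) := Nat.prime_iff_prime_int.1 hl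
  have hsub : Bl (fU U) n l ⊆ U.biUnion (fun u => (Gl n l).filter (fun c => (l : ℤ) ∣ pf c - (-u))) := by
    intro c hc
    rw [mem_Bl] at hc
    rw [Finset.mem_biUnion]
    have h1 := hc.2
    unfold fU at h1
    obtain ⟨u, hu, h2⟩ := (hlp.dvd_finsetProd_iff _).1 h1
    refine ⟨u, hu, ?_⟩
    rw [Finset.mem_filter]
    refine ⟨hc.1, ?_⟩
    rw [sub_neg_eq_add]
    exact h2
  calc (Bl (fU U) n l).card ≤ _ := Finset.card_le_card hsub
    _ ≤ ∑ u ∈ U, ((Gl n l).filter (fun c => (l : ℤ) ∣ pf c - (-u))).card := Finset.card_biUnion_le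
    _ ≤ ∑ _u ∈ U, 4 * l ^ 2 := by
        apply Finset.sum_le_sum
        intro u _
        exact bad_tau l hl hl2 n (-u) _ (fun c hc => Finset.mem_filter.1 hc)
    _ = 4 * U.card * l ^ 2 := by
        rw [Finset.sum_const, smul_eq_mul]
        ring

lemma Gl_nonempty (l : ℕ) (hl : l.Prime) (hl2 : l ≠ 2) (n : ℕ) : ∃ c, c ∈ Gl n l := by
  have h1 := count_lower l hl hl2 n
  have hl3 : (3 : ℝ) ≤ l := by
    have : 3 ≤ l := by
      have := hl.two_le
      omega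
    exact_mod_cast this
  have h2 : (0 : ℝ) < (l : ℝ) ^ 3 - l := by
    nlinarith [mul_pos (show (0:ℝ) < l by linarith) (show (0:ℝ) < l by linarith)]
  have h3 : (0 : ℝ) < ((Gl n l).card : ℝ) := lt_of_lt_of_le h2 h1
  have h4 : 0 < (Gl n l).card := by exact_mod_cast h3
  exact Finset.card_pos.1 h4

open LDx in
/-- lower bound for the density of `∏ (p + u) ≡ 0` on the sphere modulo `l` -/
theorem ldU (U : Finset ℤ) (l : ℕ) (hlp : l.Prime) (hl : 7 < l)
    (hU : ∀ u ∈ U, ∀ v ∈ U, (l : ℤ) ∣ u - v → u = v) (n : ℕ) (hn : ¬ l ∣ n) :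
    ((U.card : ℝ) / (l : ℝ) - 4 * U.card / (l : ℝ) ^ (3 / 2 : ℝ)) * ((Gl n l).card : ℝ) ≤
      ((Bl (fU U) n l).card : ℝ) := by
  classical
  have : NeZero l := ⟨hlp.ne_zero⟩
  have : Fact l.Prime := ⟨hlp⟩
  have hl2 : l ≠ 2 := by omega
  have hlo : Odd l := hlp.odd_of_ne_two hl2
  have hl0 : (0 : ℝ) < l := by exact_mod_cast hlp.pos
  have hlz : (0 : ℤ) < l := by exact_mod_cast hlp.pos
  have hnz : (n : ZMod l) ≠ 0 := by
    intro h
    rw [ZMod.natCast_eq_zero_iff] at h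
    exact hn h
  -- upper bound for `Gl`
  have hGl : ((Gl n l).card : ℝ) ≤ (l : ℝ) ^ 3 := by
    set S := univ.filter (fun u : Fin 4 → ZMod l => ∑ i, u i ^ 2 = (n : ZMod l)) with hS
    have h1 := count_quad l hlo (n : ZMod l)
    rw [← hS, if_neg hnz] at h1
    have h2 : (S.card : ℝ) * l = (l : ℝ) ^ 4 + (l : ℝ) ^ 2 * (0 - 1) := by
      have h3 : (((S.card : ℝ) * l : ℝ) : ℂ) = (((l : ℝ) ^ 4 + (l : ℝ) ^ 2 * (0 - 1) : ℝ) : ℂ) := by
        push_cast
        rw [h1]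
      exact_mod_cast h3
    have h3 : (S.card : ℝ) ≤ (l : ℝ) ^ 3 := by
      have h4 : (S.card : ℝ) * l ≤ (l : ℝ) ^ 3 * l := by
        rw [h2]
        have : 0 ≤ (l : ℝ) ^ 2 := by positivity
        nlinarith
      exact le_of_mul_le_mul_right h4 hl0
    have h4 : (Gl n l).card ≤ S.card := by
      apply Finset.card_le_card_of_injOn (fun c i => ((c i : ℤ) : ZMod l))
      · intro c hc
        rw [mem_coe, mem_Gl] at hc
        rw [mem_coe, hS, mem_filter]
        refine ⟨mem_univ _, ?_⟩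
        have := (ZMod.intCast_zmod_eq_zero_iff_dvd _ l).2 hc.2.1
        push_cast at this
        exact sub_eq_zero.1 this
      · intro c hc d hd hcd
        rw [mem_coe, mem_Gl] at hc hd
        funext i
        have h5 := congrFun hcd i
        simp only at h5
        rw [ZMod.intCast_eq_intCast_iff] at h5
        have h6 : c i % l = d i % l := h5
        rwa [Int.emod_eq_of_lt (hc.1 i).1 (hc.1 i).2, Int.emod_eq_of_lt (hd.1 i).1 (hd.1 i).2] at h6
    have h5 : ((Gl n l).card : ℝ) ≤ (S.card : ℝ) := by exact_mod_cast h4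
    linarith
  -- lower bound for `Bl`
  set SS : ℤ → Finset (Fin 4 → ZMod l) := fun v =>
    univ.filter (fun s : Fin 4 → ZMod l => (s2 s, q2 s) = ((n : ZMod l), -(v : ZMod l))) with hSS
  have hdisj : ∀ u ∈ U, ∀ v ∈ U, u ≠ v → Disjoint (SS u) (SS v) := by
    intro u hu v hv huv
    rw [Finset.disjoint_left]
    intro s hs hs'
    rw [hSS] at hs hs'
    simp only [mem_filter, mem_univ, true_and] at hs hs'
    have h1 := congrArg Prod.snd hs
    have h2 := congrArg Prod.snd hs'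
    simp only at h1 h2
    rw [h1] at h2
    apply huv
    apply hU u hu v hv
    rw [← ZMod.intCast_zmod_eq_zero_iff_dvd]
    push_cast
    rw [neg_inj] at h2
    rw [h2, sub_self]
  have hBl : (U.biUnion SS).card ≤ (Bl (fU U) n l).card := by
    apply Finset.card_le_card_of_injOn (fun u i => ((u i).val : ℤ))
    · intro s hs
      rw [mem_coe, mem_biUnion] at hs
      obtain ⟨u, hu, hsu⟩ := hs
      rw [hSS] at hsu
      simp only [mem_filter, mem_univ, true_and] at hsu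
      have hcast : ∀ i, ((((s i).val : ℤ) : ℤ) : ZMod l) = s i := by
        intro i
        push_cast
        exact ZMod.natCast_zmod_val (s i)
      have hs2 : s2 s = (n : ZMod l) := congrArg Prod.fst hsu
      have hq : q2 s = -(u : ZMod l) := congrArg Prod.snd hsu
      have hpf : ((pf (fun i => ((s i).val : ℤ)) : ℤ) : ZMod l) = q2 s := by
        unfold pf q2
        rw [Fin.sum_univ_four]
        push_cast
        simp only [ZMod.natCast_zmod_val]
        simp [co]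
      rw [mem_coe, mem_Bl, mem_Gl]
      refine ⟨⟨fun i => ⟨by positivity, ?_⟩, ?_, ?_⟩, ?_⟩
      · have := ZMod.val_lt (s i)
        show ((s i).val : ℤ) < l
        exact_mod_cast this
      · rw [← ZMod.intCast_zmod_eq_zero_iff_dvd]
        push_cast
        simp only [ZMod.natCast_zmod_val]
        unfold s2 at hs2
        rw [hs2, sub_self]
      · by_contra h
        push Not at h
        apply hnz
        rw [← hs2]
        unfold s2
        apply Finset.sum_eq_zero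
        intro i _
        have h1 := (ZMod.intCast_zmod_eq_zero_iff_dvd _ l).2 (h i)
        rw [hcast] at h1
        rw [h1]
        ring
      · rw [← ZMod.intCast_zmod_eq_zero_iff_dvd]
        unfold fU
        push_cast
        rw [hpf]
        apply Finset.prod_eq_zero hu
        rw [hq, neg_add_cancel]
    · intro u _ u' _ huu
      funext i
      have := congrFun huu i
      simp only [Nat.cast_inj] at this
      exact ZMod.val_injective _ this
  rw [Finset.card_biUnion hdisj] at hBl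
  have hB : (U.card : ℝ) * ((l : ℝ) ^ 2 - 4 * (l : ℝ) ^ (3 / 2 : ℝ)) ≤
      ((∑ u ∈ U, (SS u).card : ℕ) : ℝ) := by
    push_cast
    rw [← nsmul_eq_mul]
    apply Finset.card_nsmul_le_sum
    intro u _
    exact NN_lower l hl ((n : ZMod l), -(u : ZMod l)) hnz
  have hBr : ((∑ u ∈ U, (SS u).card : ℕ) : ℝ) ≤ ((Bl (fU U) n l).card : ℝ) := by exact_mod_cast hBl
  have hr0 : 0 < (l : ℝ) ^ (3 / 2 : ℝ) := by positivity
  by_cases hcoef : (U.card : ℝ) / (l : ℝ) - 4 * U.card / (l : ℝ) ^ (3 / 2 : ℝ) ≤ 0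
  · have h1 : (0 : ℝ) ≤ ((Gl n l).card : ℝ) := Nat.cast_nonneg _
    have h2 : (0 : ℝ) ≤ ((Bl (fU U) n l).card : ℝ) := Nat.cast_nonneg _
    have h3 := mul_nonpos_of_nonpos_of_nonneg hcoef h1
    linarith
  · push Not at hcoef
    have h1 := mul_le_mul_of_nonneg_left hGl hcoef.le
    have hr : ((l : ℝ) ^ (3 / 2 : ℝ)) * (l : ℝ) ^ (3 / 2 : ℝ) = (l : ℝ) ^ 3 := by
      rw [← Real.rpow_add hl0]
      norm_num
    have h2 : ((U.card : ℝ) / (l : ℝ) - 4 * U.card / (l : ℝ) ^ (3 / 2 : ℝ)) * (l : ℝ) ^ 3 =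
        (U.card : ℝ) * ((l : ℝ) ^ 2 - 4 * (l : ℝ) ^ (3 / 2 : ℝ)) := by
      rw [sub_mul, mul_sub]
      congr 1
      · field_simp
      · rw [← hr]
        field_simp
    rw [h2] at h1
    linarith

lemma factor_boundU (k : ℕ) {p : ℕ} (hp : 2 ≤ p) {g : ℝ}
    (hg : (k : ℝ) / (p : ℝ) - 4 * k / (p : ℝ) ^ (3 / 2 : ℝ) ≤ g) :
    1 - g ≤ (1 - (p : ℝ)⁻¹) ^ k * Real.exp (2 ^ k * (4 * k) / (p : ℝ) ^ (3 / 2 : ℝ)) := by
  have hp' : (2 : ℝ) ≤ p := by exact_mod_cast hp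
  have hp0 : (0 : ℝ) < p := by linarith
  set w : ℝ := 1 / (p : ℝ) ^ (3 / 2 : ℝ) with hw
  have hw0 : 0 < w := by positivity
  have e1 : 4 * k / (p : ℝ) ^ (3 / 2 : ℝ) = 4 * k * w := by rw [hw]; ring
  have e2 : 2 ^ k * (4 * k) / (p : ℝ) ^ (3 / 2 : ℝ) = 2 ^ k * (4 * k) * w := by rw [hw]; ring
  rw [e1] at hg
  rw [e2]
  have h1 : (1 : ℝ) / 2 ≤ 1 - (p : ℝ)⁻¹ := by
    have : (p : ℝ)⁻¹ ≤ 2⁻¹ := inv_anti₀ (by norm_num) hp'
    linarith
  have h1' : (1 : ℝ) / 2 ^ k ≤ (1 - (p : ℝ)⁻¹) ^ k := by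
    calc (1 : ℝ) / 2 ^ k = (1 / 2) ^ k := by rw [div_pow, one_pow]
      _ ≤ _ := pow_le_pow_left₀ (by norm_num) h1 k
  have h2 : 1 + 2 ^ k * (4 * k) * w ≤ Real.exp (2 ^ k * (4 * k) * w) := by
    have := Real.add_one_le_exp (2 ^ k * (4 * k) * w)
    linarith
  have h0 : 0 ≤ (1 - (p : ℝ)⁻¹) ^ k := pow_nonneg (by linarith) k
  have h3 : (1 - (p : ℝ)⁻¹) ^ k * (1 + 2 ^ k * (4 * k) * w) ≤
      (1 - (p : ℝ)⁻¹) ^ k * Real.exp (2 ^ k * (4 * k) * w) := mul_le_mul_of_nonneg_left h2 h0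
  refine le_trans ?_ h3
  have h4 : 1 - (k : ℝ) / p ≤ (1 - (p : ℝ)⁻¹) ^ k := by
    have := one_add_mul_le_pow (a := -(p : ℝ)⁻¹) (by
      have : (p : ℝ)⁻¹ ≤ 1 := by
        rw [inv_le_one₀ hp0]
        linarith
      linarith) k
    calc 1 - (k : ℝ) / p = 1 + (k : ℝ) * -(p : ℝ)⁻¹ := by ring
      _ ≤ (1 + -(p : ℝ)⁻¹) ^ k := this
      _ = _ := by ring
  have h5 : 4 * k * w ≤ (1 - (p : ℝ)⁻¹) ^ k * (2 ^ k * (4 * k) * w) := by
    calc 4 * k * w = 1 / 2 ^ k * (2 ^ k * (4 * k) * w) := by field_simp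
      _ ≤ _ := mul_le_mul_of_nonneg_right h1' (by positivity)
  have h6 : (1 - (p : ℝ)⁻¹) ^ k * (1 + 2 ^ k * (4 * k) * w) =
      (1 - (p : ℝ)⁻¹) ^ k + (1 - (p : ℝ)⁻¹) ^ k * (2 ^ k * (4 * k) * w) := by ring
  rw [h6]
  linarith

end Pool.Agent.NH18.PC
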