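import Pool.Agent.NH18.PC.A1

/-!
# Upper bound of the right order in the sieve, for any finite set of shifts
-/

set_option autoImplicit false
open Finset

namespace Pool.Agent.NH18.PC

open Pool.Agent.W65.FS
open Pool.Agent.R496.FP
open Pool.Agent.R496.FP.UPx

/-- upper bound of the right order for the number of primitive representations of an odd `n`
for which no `p + u`, `u ∈ U`, has a prime factor `≤ n ^ η` -/
theorem upU (U : Finset ℤ) (η : ℝ) (hη : 0 < η) : ∃ C : ℝ, 0 < C ∧ ∃ n0 : ℕ, ∀ n : ℕ, Odd n →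
    n0 ≤ n → ∀ S : Finset (Fin 4 → ℤ), S ⊆ preps n →
    (∀ X ∈ S, ∀ l : ℕ, l.Prime → (l : ℝ) ≤ (n : ℝ) ^ η → ¬ (l : ℤ) ∣ fU U X) →
    (S.card : ℝ) ≤ C * ((n : ℝ) / Nat.totient n) ^ U.card * ((preps n).card : ℝ) /
      Real.log n ^ U.card := by
  classical
  set k : ℕ := U.card with hk
  set κ : ℕ := 4 * k with hκ
  set D : ℕ := ∑ u ∈ U, u.natAbs with hD
  obtain ⟨C0, hC0, hFL⟩ := Pool.Agent.H20R2.fLem κ
  obtain ⟨C, hC, hdist⟩ := distribution
  obtain ⟨c1, hc1, hlow⟩ := preps_lower ((1 / 50 : ℝ) / 4) (by norm_num)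
  set z0 : ℕ := C0 + 2 * κ + 10 + 2 * D with hz0
  obtain ⟨B1, hB1⟩ := exists_nat_ge (1 / η)
  set B : ℕ := 100 * (16 * (C0 * C0) + 1) + 400 * κ + B1 with hB
  have hBpos : 1 ≤ B := by omega
  have hBr : (0 : ℝ) < B := by exact_mod_cast hBpos
  have hBη : 1 / (B : ℝ) ≤ η := by
    have h1 : (B1 : ℝ) ≤ B := by exact_mod_cast (show B1 ≤ B by omega)
    rw [div_le_iff₀ hBr]
    rw [div_le_iff₀ hη] at hB1
    nlinarith
  set c3 : ℝ := Real.exp (-(2 * (κ : ℕ))) with hc3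
  have hc3pos : 0 < c3 := Real.exp_pos _
  obtain ⟨n2, hn2⟩ := large_rpow ((2 * C) / (c1 * c3 / 2)) (3 / 100) (by norm_num)
  set K : ℝ := Real.exp (2 ^ k * (4 * k) * K1) * K0 z0 ^ k * (2 * (B : ℝ)) ^ k with hK
  have hKpos : 0 < K := by
    have := K0_pos z0
    positivity
  refine ⟨2 * K, by positivity, n2 + 2 ^ B, ?_⟩
  intro n hno hnbig S hSsub hSav
  have hn : 1 ≤ n := hno.pos
  have hnr : (1 : ℝ) ≤ n := by exact_mod_cast hn
  have hn0 : (0 : ℝ) < n := by linarith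
  have h2B : 0 < 2 ^ B := by positivity
  have hn2' := hn2 n (by omega)
  have hn2B : 2 ^ B ≤ n := by omega
  -- scale
  obtain ⟨J, hJ1, hJ2⟩ := exists_scale B n hBpos hn2B
  set z : ℕ := 2 ^ 2 ^ J with hz
  have hz2 : 2 ≤ z := by
    have h1 : 1 ≤ 2 ^ J := Nat.one_le_two_pow
    calc 2 = 2 ^ 1 := rfl
      _ ≤ 2 ^ 2 ^ J := Nat.pow_le_pow_right (by norm_num) h1
  have hzr : (2 : ℝ) ≤ z := by exact_mod_cast hz2
  have hz0r : (0 : ℝ) < z := by linarith
  have hzB : (z : ℝ) ≤ (n : ℝ) ^ (1 / (B : ℝ)) := by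
    have h1 : (z : ℝ) ^ B ≤ n := by exact_mod_cast hJ1
    calc (z : ℝ) = ((z : ℝ) ^ B) ^ (1 / (B : ℝ)) := by
          rw [← Real.rpow_natCast, ← Real.rpow_mul hz0r.le, mul_one_div_cancel hBr.ne',
            Real.rpow_one]
      _ ≤ _ := Real.rpow_le_rpow (by positivity) h1 (by positivity)
  have hzη : (z : ℝ) ≤ (n : ℝ) ^ η :=
    hzB.trans (Real.rpow_le_rpow_of_exponent_le hnr hBη)
  have hlogz0 : 0 < Real.log z := Real.log_pos (by linarith)
  have hlogn : Real.log n ≤ 2 * B * Real.log z := by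
    have h1 : (n : ℝ) < (z : ℝ) ^ (2 * B) := by
      have : (2 ^ 2 ^ (J + 1)) ^ B = z ^ (2 * B) := by
        rw [hz, pow_mul, ← pow_mul 2 (2 ^ J) 2, pow_succ]
      rw [this] at hJ2
      exact_mod_cast hJ2
    have h2 := Real.log_le_log hn0 h1.le
    rw [Real.log_pow] at h2
    push_cast at h2
    exact h2
  have hlogn0 : 0 < Real.log n := by
    apply Real.log_pos
    have h1 : 2 ≤ n := by
      have h3 : 2 ^ 1 ≤ 2 ^ B := Nat.pow_le_pow_right (by norm_num) hBpos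
      omega
    exact_mod_cast h1
  -- primes
  set P : Finset ℕ := ((Ioc z0 z).filter Nat.Prime).filter (fun l => ¬ l ∣ n) with hP
  have hPp : ∀ p ∈ P, p.Prime ∧ z0 < p ∧ p ≤ z ∧ ¬ p ∣ n := by
    intro p hp
    rw [hP, Finset.mem_filter, Finset.mem_filter, Finset.mem_Ioc] at hp
    exact ⟨hp.1.2, hp.1.1.1, hp.1.1.2, hp.2⟩
  have hP2 : ∀ p ∈ P, p ≠ 2 := fun p hp => by have := (hPp p hp).2.1; omega
  have hgb : ∀ p ∈ P, 0 ≤ gg (fU U) n p ∧ gg (fU U) n p ≤ (κ : ℕ) / ((p : ℝ) - 1) := fun p hp =>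
    gg_bound (fU U) κ n p (hPp p hp).1 (hP2 p hp) (Bl_card_U U p (hPp p hp).1 (hP2 p hp) n)
  set A := prc n 1 0 with hA
  have hAeq : A = preps n := prc_one n
  obtain ⟨e, he⟩ := exists_injective_nat (Fin 4 → ℤ)
  set Ω : Finset ℕ := A.map ⟨e, he⟩ with hΩ
  set hit : ℕ → ℕ → Prop := fun p m => ∀ X, e X = m → red p X ∈ Bl (fU U) n p with hhit
  have hhit' : ∀ p X, hit p (e X) ↔ red p X ∈ Bl (fU U) n p := by
    intro p X
    constructor
    · intro h; exact h X rfl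
    · intro h Y hY
      rw [he hY]; exact h
  set err : Finset ℕ → ℝ := fun T => C * (((1 : ℕ)) : ℝ) ^ 11 * ((∏ l ∈ T, l : ℕ) : ℝ) ^ 15 *
    (n : ℝ) ^ (19 / 20 : ℝ) with herr
  have hfl := hFL C0 J z0 P (gg (fU U) n) le_rfl (by omega)
    (fun p hp => ⟨(hPp p hp).1, (hPp p hp).2.1, (hPp p hp).2.2.1⟩)
    (fun p hp => hgb p hp) Ω (fun _ => 1) hit (A.card : ℝ) err (fun _ _ => zero_le_one)
    (by positivity)
    (fun T hT _ => by
      have h1 := hdist n 1 hn one_pos odd_one squarefree_one 0 (good_one n) T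
        (fun l hl => ⟨(hPp l (hT hl)).1,
          fun h => (hPp l (hT hl)).1.one_lt.ne' (Nat.dvd_one.1 h), hP2 l (hT hl), by
          obtain ⟨c, hc⟩ := Gl_nonempty l (hPp l (hT hl)).1 (hP2 l (hT hl)) n
          exact ⟨c, hc⟩⟩)
        (fun l => Bl (fU U) n l) (fun l _ c hc => ((mem_Bl (fU U) n l c).1 hc).1)
      have h2 : ∑ m ∈ Ω.filter (fun m => ∀ p ∈ T, hit p m), (1 : ℝ) =
          (((prc n 1 0).filter (fun X => ∀ l ∈ T, red l X ∈ Bl (fU U) n l)).card : ℝ) := by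
        rw [Finset.sum_const, nsmul_eq_mul, mul_one, hΩ, Finset.filter_map, Finset.card_map]
        congr 2
        ext X
        simp only [Finset.mem_filter, Function.comp, Function.Embedding.coeFn_mk, hhit']
        rfl
      rw [h2]
      exact h1)
  -- the sifted set
  set S0 : Finset (Fin 4 → ℤ) := A.filter (fun X => ∀ p ∈ P, red p X ∉ Bl (fU U) n p) with hS0
  have hScard : ∑ m ∈ Ω.filter (fun m => ∀ p ∈ P, ¬ hit p m), (1 : ℝ) = (S0.card : ℝ) := by
    rw [Finset.sum_const, nsmul_eq_mul, mul_one, hΩ, Finset.filter_map, Finset.card_map]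
    congr 2
    ext X
    simp only [Finset.mem_filter, Function.comp, Function.Embedding.coeFn_mk, hhit']
    rw [hS0, Finset.mem_filter]
  have hfl' : |(S0.card : ℝ) - A.card * ∏ p ∈ P, (1 - gg (fU U) n p)| ≤
      (1 / 2 : ℝ) ^ C0 * (A.card * ∏ p ∈ P, (1 - gg (fU U) n p)) +
        ((J : ℝ) + 2) * ∑ T ∈ P.powerset.filter
          (fun T : Finset ℕ => ∏ p ∈ T, p ≤ z ^ (C0 * C0)), err T := by
    rw [← hScard]
    convert hfl using 3
  have hSS0 : S ⊆ S0 := by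
    intro X hX
    have hXp : X ∈ prc n 1 0 := by
      rw [← hA, hAeq]
      exact hSsub hX
    rw [hS0, Finset.mem_filter]
    refine ⟨hXp, ?_⟩
    intro p hp hred
    rw [mem_Bl] at hred
    have h3 := fU_congr U p X (red p X) (red_dvd p X)
    have h4 := dvd_add h3 hred.2
    rw [sub_add_cancel] at h4
    refine hSav X hX p (hPp p hp).1 ?_ h4
    have h5 : (p : ℝ) ≤ z := by exact_mod_cast (hPp p hp).2.2.1
    linarith
  -- bounds
  have hz0le : (2 : ℝ) * κ + 1 ≤ z0 := by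
    rw [hz0]; push_cast
    have : (0:ℝ) ≤ C0 := by positivity
    have : (0:ℝ) ≤ D := by positivity
    linarith
  have hV : c3 * (z : ℝ) ^ (-(2 * (κ : ℕ) : ℝ)) ≤ ∏ p ∈ P, (1 - gg (fU U) n p) := by
    apply prod_lower κ z (by omega) P (fun p hp => ⟨(hPp p hp).1.two_le, (hPp p hp).2.2.1⟩)
      (gg (fU U) n) (fun p hp => (hgb p hp).1) (fun p hp => (hgb p hp).2)
    intro p hp
    refine (hgb p hp).2.trans ?_
    have h1 : (z0 : ℝ) < p := by exact_mod_cast (hPp p hp).2.1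
    have hκ0 : (0 : ℝ) ≤ κ := by positivity
    rw [div_le_div_iff₀ (by linarith) (by norm_num)]
    linarith
  set V := ∏ p ∈ P, (1 - gg (fU U) n p) with hVdef
  have hV0 : 0 ≤ V := le_trans (by positivity) hV
  have hhalf : (1 / 2 : ℝ) ^ C0 ≤ 1 / 2 := by
    calc (1 / 2 : ℝ) ^ C0 ≤ (1 / 2 : ℝ) ^ 1 := pow_le_pow_of_le_one (by norm_num) (by norm_num) hC0
      _ = 1 / 2 := pow_one _
  have hErr : ((J : ℝ) + 2) * ∑ T ∈ P.powerset.filter
        (fun T : Finset ℕ => ∏ p ∈ T, p ≤ z ^ (C0 * C0)), err T ≤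
      2 * C * ((z : ℝ) ^ (16 * (C0 * C0) + 1) * (n : ℝ) ^ (19 / 20 : ℝ)) := by
    have h1 : ∀ T ∈ P.powerset.filter (fun T : Finset ℕ => ∏ p ∈ T, p ≤ z ^ (C0 * C0)), err T ≤
        C * ((z : ℝ) ^ (C0 * C0)) ^ 15 * (n : ℝ) ^ (19 / 20 : ℝ) := by
      intro T hT
      have h2 := (Finset.mem_filter.1 hT).2
      have h3 : ((∏ l ∈ T, l : ℕ) : ℝ) ≤ (z : ℝ) ^ (C0 * C0) := by exact_mod_cast h2
      rw [herr]
      simp only [Nat.cast_one, one_pow, mul_one]
      gcongr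
    have h2 := Finset.sum_le_sum h1
    rw [Finset.sum_const, nsmul_eq_mul] at h2
    have h3 := card_sets P (fun p hp => (hPp p hp).1) (z ^ (C0 * C0))
    have h4 : (((P.powerset.filter (fun T : Finset ℕ => ∏ p ∈ T, p ≤ z ^ (C0 * C0))).card : ℕ) : ℝ)
        ≤ (z : ℝ) ^ (C0 * C0) := by
      exact_mod_cast h3
    have hJz : (J : ℝ) + 2 ≤ 2 * z := by
      have h5 : J + 2 ≤ 2 * z := by
        have h6 : J < 2 ^ J := Nat.lt_two_pow_self
        have h7 : 2 ^ J < 2 ^ 2 ^ J := Nat.lt_two_pow_self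
        omega
      exact_mod_cast h5
    calc ((J : ℝ) + 2) * ∑ T ∈ P.powerset.filter
          (fun T : Finset ℕ => ∏ p ∈ T, p ≤ z ^ (C0 * C0)), err T
        ≤ (2 * z) * ((z : ℝ) ^ (C0 * C0) *
          (C * ((z : ℝ) ^ (C0 * C0)) ^ 15 * (n : ℝ) ^ (19 / 20 : ℝ))) := by
          apply mul_le_mul hJz (h2.trans (by gcongr)) _ (by positivity)
          apply Finset.sum_nonneg
          intro T _
          rw [herr]
          positivity
      _ = _ := by ring
  have hzpow1 : (z : ℝ) ^ (16 * (C0 * C0) + 1) ≤ (n : ℝ) ^ (1 / 100 : ℝ) := by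
    calc (z : ℝ) ^ (16 * (C0 * C0) + 1) ≤ ((n : ℝ) ^ (1 / (B : ℝ))) ^ (16 * (C0 * C0) + 1) := by
          gcongr
      _ = (n : ℝ) ^ ((16 * (C0 * C0) + 1 : ℕ) / (B : ℝ)) := by
        rw [← Real.rpow_natCast, ← Real.rpow_mul hn0.le]
        congr 1
        ring
      _ ≤ _ := by
        apply Real.rpow_le_rpow_of_exponent_le hnr
        rw [div_le_div_iff₀ hBr (by norm_num)]
        have : (16 * (C0 * C0) + 1) * 100 ≤ 1 * B := by omega
        exact_mod_cast this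
  have hzpow2 : (n : ℝ) ^ (-((1 / 50 : ℝ) / 4)) ≤ (z : ℝ) ^ (-(2 * (κ : ℕ) : ℝ)) := by
    rw [Real.rpow_neg hn0.le, Real.rpow_neg hz0r.le]
    apply inv_anti₀ (Real.rpow_pos_of_pos hz0r _)
    calc (z : ℝ) ^ (2 * (κ : ℕ) : ℝ) ≤ ((n : ℝ) ^ (1 / (B : ℝ))) ^ (2 * (κ : ℕ) : ℝ) :=
          Real.rpow_le_rpow hz0r.le hzB (by positivity)
      _ = (n : ℝ) ^ (2 * (κ : ℕ) / (B : ℝ)) := by
        rw [← Real.rpow_mul hn0.le]
        congr 1
        ring
      _ ≤ _ := by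
        apply Real.rpow_le_rpow_of_exponent_le hnr
        rw [div_le_iff₀ hBr]
        have h1 : (400 : ℝ) * κ ≤ B := by
          exact_mod_cast (show 400 * κ ≤ B by omega)
        linarith
  have hmain : c1 * c3 * (n : ℝ) ^ (1 - (1 / 50 : ℝ) / 2) ≤ A.card * V := by
    calc c1 * c3 * (n : ℝ) ^ (1 - (1 / 50 : ℝ) / 2) =
        (c1 * (n : ℝ) ^ (1 - (1 / 50 : ℝ) / 4)) * (c3 * (n : ℝ) ^ (-((1 / 50 : ℝ) / 4))) := by
          have : (n : ℝ) ^ (1 - (1 / 50 : ℝ) / 2) =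
              (n : ℝ) ^ (1 - (1 / 50 : ℝ) / 4) * (n : ℝ) ^ (-((1 / 50 : ℝ) / 4)) := by
            rw [← Real.rpow_add hn0]; congr 1; norm_num
          rw [this]; ring
      _ ≤ A.card * V := by
        apply mul_le_mul _ _ (by positivity) (by positivity)
        · rw [hAeq]
          exact hlow n hno
        · exact le_trans (by gcongr) hV
  have hfin : (S0.card : ℝ) ≤ 2 * (A.card * V) := by
    have h1 := (abs_le.1 hfl').2
    have h2 : (1 / 2 : ℝ) ^ C0 * (A.card * V) ≤ 1 / 2 * (A.card * V) := by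
      apply mul_le_mul_of_nonneg_right hhalf (by positivity)
    have h3 : 2 * C * ((z : ℝ) ^ (16 * (C0 * C0) + 1) * (n : ℝ) ^ (19 / 20 : ℝ)) ≤
        c1 * c3 / 2 * (n : ℝ) ^ (1 - (1 / 50 : ℝ) / 2) := by
      rw [div_le_iff₀ (by positivity)] at hn2'
      have h4 : (n : ℝ) ^ (3 / 100 : ℝ) * ((n : ℝ) ^ (1 / 100 : ℝ) * (n : ℝ) ^ (19 / 20 : ℝ)) ≤
          (n : ℝ) ^ (1 - (1 / 50 : ℝ) / 2) := by
        rw [← Real.rpow_add hn0, ← Real.rpow_add hn0]
        apply Real.rpow_le_rpow_of_exponent_le hnr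
        norm_num
      calc 2 * C * ((z : ℝ) ^ (16 * (C0 * C0) + 1) * (n : ℝ) ^ (19 / 20 : ℝ))
          ≤ ((n : ℝ) ^ (3 / 100 : ℝ) * (c1 * c3 / 2)) *
            ((n : ℝ) ^ (1 / 100 : ℝ) * (n : ℝ) ^ (19 / 20 : ℝ)) := by gcongr
        _ = c1 * c3 / 2 * ((n : ℝ) ^ (3 / 100 : ℝ) *
            ((n : ℝ) ^ (1 / 100 : ℝ) * (n : ℝ) ^ (19 / 20 : ℝ))) := by ring
        _ ≤ _ := by gcongr
    linarith
  -- upper bound for V
  have hVup : V ≤ Real.exp (2 ^ k * (4 * k) * K1) * (∏ p ∈ P, (1 - (p : ℝ)⁻¹)) ^ k := by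
    have h1 : V ≤ ∏ p ∈ P, ((1 - (p : ℝ)⁻¹) ^ k *
        Real.exp (2 ^ k * (4 * k) / (p : ℝ) ^ (3 / 2 : ℝ))) := by
      rw [hVdef]
      apply Finset.prod_le_prod
      · intro p hp
        have h2 := (hgb p hp).2
        have h3 : (z0 : ℝ) < p := by exact_mod_cast (hPp p hp).2.1
        have h4 : ((κ : ℕ) : ℝ) / ((p : ℝ) - 1) ≤ 1 := by
          have hκ0 : (0 : ℝ) ≤ κ := by positivity
          rw [div_le_one (by linarith)]
          linarith
        linarith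
      · intro p hp
        apply factor_boundU k (hPp p hp).1.two_le
        have h2 := ldU U p (hPp p hp).1 (by have := (hPp p hp).2.1; omega) (by
          intro u hu v hv huv
          have hz := (hPp p hp).2.1
          have hu1 : u.natAbs ≤ D := Finset.single_le_sum (f := fun u : ℤ => u.natAbs)
            (fun _ _ => Nat.zero_le _) hu
          have hv1 : v.natAbs ≤ D := Finset.single_le_sum (f := fun u : ℤ => u.natAbs)
            (fun _ _ => Nat.zero_le _) hv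
          have h5 : (u - v).natAbs < p := by omega
          have h6 := Int.eq_zero_of_abs_lt_dvd huv (by rw [Int.abs_eq_natAbs]; exact_mod_cast h5)
          exact sub_eq_zero.1 h6) n (hPp p hp).2.2.2
        unfold gg
        have h3 : 0 < ((Gl n p).card : ℝ) := by
          obtain ⟨c, hc⟩ := Gl_nonempty p (hPp p hp).1 (hP2 p hp) n
          exact_mod_cast Finset.card_pos.2 ⟨c, hc⟩
        rw [le_div_iff₀ h3]
        exact h2
    refine h1.trans ?_
    rw [Finset.prod_mul_distrib, Finset.prod_pow, ← Real.exp_sum, mul_comm]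
    apply mul_le_mul_of_nonneg_right _ (pow_nonneg (prodA_pos P (fun p hp => (hPp p hp).1)).le _)
    apply Real.exp_le_exp.2
    have h2 := sum_le_K1 P
    have h3 : ∑ p ∈ P, 2 ^ k * (4 * k) / (p : ℝ) ^ (3 / 2 : ℝ) =
        2 ^ k * (4 * k) * ∑ p ∈ P, 1 / (p : ℝ) ^ (3 / 2 : ℝ) := by
      rw [Finset.mul_sum]
      apply Finset.sum_congr rfl
      intro p _
      ring
    rw [h3]
    exact mul_le_mul_of_nonneg_left h2 (by positivity)
  have hmert := mert z0 z n hz2 hn P hP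
  have hprod0 : 0 ≤ ∏ p ∈ P, (1 - (p : ℝ)⁻¹) :=
    (prodA_pos P (fun p hp => (hPp p hp).1)).le
  have hK0pos := K0_pos z0
  have hVK : V ≤ K * ((n : ℝ) / Nat.totient n) ^ k / Real.log n ^ k := by
    have h1 : (∏ p ∈ P, (1 - (p : ℝ)⁻¹)) ^ k ≤
        (K0 z0 * ((n : ℝ) / Nat.totient n) / Real.log z) ^ k := pow_le_pow_left₀ hprod0 hmert k
    have h2 : 1 / Real.log z ≤ 2 * B / Real.log n := by
      rw [div_le_div_iff₀ hlogz0 hlogn0]
      linarith
    have h3 : (1 / Real.log z) ^ k ≤ (2 * B / Real.log n) ^ k :=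
      pow_le_pow_left₀ (by positivity) h2 k
    calc V ≤ Real.exp (2 ^ k * (4 * k) * K1) *
            (K0 z0 * ((n : ℝ) / Nat.totient n) / Real.log z) ^ k :=
          hVup.trans (mul_le_mul_of_nonneg_left h1 (Real.exp_pos _).le)
      _ = Real.exp (2 ^ k * (4 * k) * K1) * K0 z0 ^ k * ((n : ℝ) / Nat.totient n) ^ k *
            (1 / Real.log z) ^ k := by
          have e : K0 z0 * ((n : ℝ) / Nat.totient n) / Real.log z =
              K0 z0 * ((n : ℝ) / Nat.totient n) * (1 / Real.log z) := by ring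
          rw [e, mul_pow, mul_pow]
          ring
      _ ≤ Real.exp (2 ^ k * (4 * k) * K1) * K0 z0 ^ k * ((n : ℝ) / Nat.totient n) ^ k *
            (2 * B / Real.log n) ^ k := mul_le_mul_of_nonneg_left h3 (by positivity)
      _ = _ := by
          rw [hK, div_pow]
          ring
  have hS1 : (S.card : ℝ) ≤ S0.card := by exact_mod_cast Finset.card_le_card hSS0
  calc (S.card : ℝ) ≤ 2 * (A.card * V) := hS1.trans hfin
    _ ≤ 2 * (A.card * (K * ((n : ℝ) / Nat.totient n) ^ k / Real.log n ^ k)) := by gcongr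
    _ = _ := by
        rw [hAeq]
        ring

end Pool.Agent.NH18.PC
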