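import Pool.Agent.R496.FP.Defs2

/-!
# The moments of `n / φ(n)`
-/

set_option autoImplicit false
open Finset

namespace Pool.Agent.NH18.PC

namespace PH

/-- `(1 - 1/p)^(-j) - 1` -/
noncomputable def h (j p : ℕ) : ℝ := ((1 - (p : ℝ)⁻¹)⁻¹) ^ j - 1

theorem h_nonneg (j : ℕ) {p : ℕ} (hp : 2 ≤ p) : 0 ≤ h j p := by
  have h1 : (2 : ℝ) ≤ p := by exact_mod_cast hp
  have h2 : (p : ℝ)⁻¹ ≤ 1 / 2 := by rw [inv_eq_one_div]; exact one_div_le_one_div_of_le two_pos h1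
  have h3 : 0 ≤ (p : ℝ)⁻¹ := by positivity
  have h4 : 1 ≤ (1 - (p : ℝ)⁻¹)⁻¹ := by
    rw [one_le_inv₀ (by linarith)]; linarith
  have := one_le_pow₀ h4 (n := j)
  rw [h]; linarith

theorem h_le (j : ℕ) {p : ℕ} (hp : 2 ≤ p) : h j p ≤ (2 * (j * 2 ^ j)) / p := by
  have h1 : (2 : ℝ) ≤ p := by exact_mod_cast hp
  have h2 : (p : ℝ)⁻¹ ≤ 1 / 2 := by rw [inv_eq_one_div]; exact one_div_le_one_div_of_le two_pos h1
  have h3 : 0 ≤ (p : ℝ)⁻¹ := by positivity
  set x := (p : ℝ)⁻¹ with hx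
  have h4 : (2 * (j * 2 ^ j) : ℝ) / p = (2 * (j * 2 ^ j)) * x := by rw [hx]; ring
  rw [h, h4, ← hx]
  have hpos : 0 < 1 - x := by linarith
  set y := (1 - x)⁻¹ with hy
  have y1 : 1 ≤ y := by rw [hy, one_le_inv₀ hpos]; linarith
  have y2 : y ≤ 2 := by rw [hy, inv_le_comm₀ hpos two_pos]; linarith
  have y3 : x = 1 - y⁻¹ := by rw [hy, inv_inv]; ring
  have y4 : y - 1 = x * y := by
    rw [y3]; field_simp
  have e : y ^ j - 1 = (y - 1) * ∑ i ∈ range j, y ^ i := (mul_geom_sum y j).symm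
  rw [e, y4]
  have s : ∑ i ∈ range j, y ^ i ≤ j * 2 ^ j := by
    calc ∑ i ∈ range j, y ^ i ≤ ∑ _i ∈ range j, (2 : ℝ) ^ j := by
          apply sum_le_sum
          intro i hi
          rw [mem_range] at hi
          calc y ^ i ≤ 2 ^ i := pow_le_pow_left₀ (by linarith) y2 i
            _ ≤ 2 ^ j := pow_le_pow_right₀ (by norm_num) hi.le
      _ = _ := by rw [sum_const, card_range, nsmul_eq_mul]
  calc x * y * ∑ i ∈ range j, y ^ i ≤ x * y * (j * 2 ^ j) :=
        mul_le_mul_of_nonneg_left s (by positivity)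
    _ ≤ x * 2 * (j * 2 ^ j) := by
        refine mul_le_mul_of_nonneg_right (mul_le_mul_of_nonneg_left y2 h3) (by positivity)
    _ = (2 * (j * 2 ^ j)) * x := by ring

theorem ratio (j : ℕ) (n : ℕ) (hn : 0 < n) : ((n : ℝ) / Nat.totient n) ^ j =
    ∏ p ∈ n.primeFactors, (1 + h j p) := by
  have h1 : (Nat.totient n : ℝ) = n * ∏ p ∈ n.primeFactors, (1 - (p : ℝ)⁻¹) := by
    have := Nat.totient_eq_mul_prod_factors n
    have h2 := congrArg (fun x : ℚ => (x : ℝ)) this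
    push_cast at h2
    exact h2
  have hn0 : (n : ℝ) ≠ 0 := by exact_mod_cast hn.ne'
  rw [h1, div_mul_eq_div_div, div_self hn0, one_div, ← prod_inv_distrib, ← prod_pow]
  refine prod_congr rfl fun p _ => ?_
  rw [h]; ring

end PH

open PH in
theorem phj (j : ℕ) : ∃ C : ℝ, 0 < C ∧ ∀ N : ℕ,
    ∑ n ∈ Icc 1 N, ((n : ℝ) / Nat.totient n) ^ j ≤ C * N := by
  have hs : Summable fun n : ℕ => ((n : ℝ) ^ 2)⁻¹ := Real.summable_nat_pow_inv.2 one_lt_two
  refine ⟨Real.exp ((2 * (j * 2 ^ j)) * ∑' n : ℕ, ((n : ℝ) ^ 2)⁻¹), Real.exp_pos _, fun N => ?_⟩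
  set P := (Icc 1 N).filter Nat.Prime with hP
  have e1 : ∀ n ∈ Icc 1 N, ((n : ℝ) / Nat.totient n) ^ j =
      ∑ T ∈ P.powerset, if T ⊆ n.primeFactors then ∏ p ∈ T, h j p else 0 := by
    intro n hn
    rw [mem_Icc] at hn
    rw [ratio j n hn.1, prod_one_add, ← sum_filter]
    refine sum_congr ?_ fun _ _ => rfl
    ext T
    rw [mem_powerset, mem_filter, mem_powerset]
    refine ⟨fun hT => ⟨fun p hp => ?_, hT⟩, fun hT => hT.2⟩
    have h1 := hT hp
    rw [Nat.mem_primeFactors] at h1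
    rw [hP, mem_filter, mem_Icc]
    exact ⟨⟨h1.1.one_lt.le, (Nat.le_of_dvd hn.1 h1.2.1).trans hn.2⟩, h1.1⟩
  rw [sum_congr rfl e1, sum_comm]
  have e2 : ∀ T ∈ P.powerset, ∑ n ∈ Icc 1 N, (if T ⊆ n.primeFactors then ∏ p ∈ T, h j p else 0) ≤
      N * ∏ p ∈ T, (h j p / p) := by
    intro T hT
    rw [mem_powerset] at hT
    have hTp : ∀ p ∈ T, p.Prime := fun p hp => (mem_filter.1 (hT hp)).2
    have hnn : 0 ≤ ∏ p ∈ T, h j p := prod_nonneg fun p hp => h_nonneg j (hTp p hp).two_le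
    rw [← sum_filter, sum_const, nsmul_eq_mul, prod_div_distrib]
    have hc : (((Icc 1 N).filter fun n => T ⊆ n.primeFactors).card : ℝ) ≤
        (N : ℝ) / ∏ p ∈ T, (p : ℝ) := by
      have h1 : ((Icc 1 N).filter fun n => T ⊆ n.primeFactors).card ≤ N / ∏ p ∈ T, p := by
        rw [← Nat.Ioc_filter_dvd_card_eq_div]
        refine card_le_card fun n hn => ?_
        rw [mem_filter, mem_Icc] at hn
        rw [mem_filter, mem_Ioc]
        refine ⟨⟨hn.1.1, hn.1.2⟩, ?_⟩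
        refine Finset.prod_primes_dvd n (fun p hp => (hTp p hp).prime) fun p hp => ?_
        exact Nat.dvd_of_mem_primeFactors (hn.2 hp)
      calc (((Icc 1 N).filter fun n => T ⊆ n.primeFactors).card : ℝ) ≤
            ((N / ∏ p ∈ T, p : ℕ) : ℝ) := by exact_mod_cast h1
        _ ≤ (N : ℝ) / ((∏ p ∈ T, p : ℕ) : ℝ) := Nat.cast_div_le
        _ = _ := by push_cast; rfl
    calc _ ≤ (N : ℝ) / (∏ p ∈ T, (p : ℝ)) * ∏ p ∈ T, h j p := mul_le_mul_of_nonneg_right hc hnn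
      _ = _ := by ring
  refine (sum_le_sum e2).trans ?_
  rw [← mul_sum, ← prod_one_add, mul_comm]
  refine mul_le_mul_of_nonneg_right ?_ (Nat.cast_nonneg N)
  have hPp : ∀ p ∈ P, p.Prime := fun p hp => (mem_filter.1 hp).2
  calc ∏ p ∈ P, (1 + h j p / p) ≤ ∏ p ∈ P, Real.exp (h j p / p) := by
        refine prod_le_prod (fun p hp => ?_) fun p _ => ?_
        · have := h_nonneg j (hPp p hp).two_le
          positivity
        · rw [add_comm]; exact Real.add_one_le_exp _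
    _ = Real.exp (∑ p ∈ P, h j p / p) := (Real.exp_sum _ _).symm
    _ ≤ _ := by
        rw [Real.exp_le_exp]
        calc ∑ p ∈ P, h j p / p ≤ ∑ p ∈ P, (2 * (j * 2 ^ j)) * ((p : ℝ) ^ 2)⁻¹ := by
              refine sum_le_sum fun p hp => ?_
              have h1 := h_le j (hPp p hp).two_le
              have h2 : (0 : ℝ) < p := by exact_mod_cast (hPp p hp).pos
              calc h j p / p ≤ (2 * (j * 2 ^ j)) / p / p := div_le_div_of_nonneg_right h1 h2.le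
                _ = _ := by field_simp
          _ = (2 * (j * 2 ^ j)) * ∑ p ∈ P, ((p : ℝ) ^ 2)⁻¹ := by rw [mul_sum]
          _ ≤ _ := mul_le_mul_of_nonneg_left (hs.sum_le_tsum _ fun n _ => by positivity)
              (by positivity)

end Pool.Agent.NH18.PC
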