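import Pool.Agent.R496.FP.FIN
import Pool.Agent.NH18.PC.A2
import Pool.Agent.NH18.PC.A3
import Pool.Agent.NH18.PC.A4

/-!
# Transference: sets of primes with rough shifts
-/

set_option autoImplicit false
open Finset

namespace Pool.Agent.NH18.PC

open Pool.Agent.W65.FS
open Pool.Agent.R496.FP

/-- the transference -/
theorem tr (hFA : FA) (hEX : EX) (hMI : MI) (hMA : MA) (hSG : SG) (hM2 : M2)
    (U : Finset ℤ) (η κ : ℝ) (hη : 0 < η) (hκ : 0 < κ) : ∃ c : ℝ, 0 < c ∧ ∃ N0 : ℕ, ∀ N : ℕ,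
    N0 ≤ N → ∀ S : Finset ℕ, (∀ P ∈ S, P.Prime ∧ N < 2 * P ∧ P ≤ N ∧
      ∀ u ∈ U, ∀ l : ℕ, l.Prime → (l : ℝ) ≤ (N : ℝ) ^ η → ¬ (l : ℤ) ∣ (P : ℤ) + u) →
    κ * N / Real.log N ^ U.card ≤ S.card → ∃ A : Finset ℕ, c * N ≤ (A.card : ℝ) ∧
    ∀ n ∈ A, 1 ≤ n ∧ n ≤ N ∧ Odd n ∧ ∃ R : Finset (Fin 4 → ℤ),
    c * N / Real.log N ^ U.card ≤ (R.card : ℝ) ∧ ∀ X ∈ R, ∃ P ∈ S,
    (n : ℤ) = X 0 ^ 2 + X 1 ^ 2 + X 2 ^ 2 + X 3 ^ 2 ∧
    (P : ℤ) = X 0 ^ 2 + 3 * X 1 ^ 2 + 5 * X 2 ^ 2 + 7 * X 3 ^ 2 := by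
  classical
  set k : ℕ := U.card with hk
  obtain ⟨c1, hc1, X1, hlo⟩ := loU hFA hEX hMI hMA hSG k κ hκ
  obtain ⟨C2, hC2, n0, hup⟩ := upU U η hη
  obtain ⟨C3, hC3, hm2⟩ := hM2
  obtain ⟨C4, hC4, hph⟩ := phj (4 * k)
  set c5 : ℝ := c1 * κ / (2 * 2 ^ k * C2) with hc5def
  have hc5 : 0 < c5 := by positivity
  set c6 : ℝ := min (c5 ^ 4 / ((8 * C3) ^ 2 * C4)) (c1 * κ / 2) with hc6def
  have hc6 : 0 < c6 := lt_min (by positivity) (by positivity)
  have hc61 : c6 ≤ c5 ^ 4 / ((8 * C3) ^ 2 * C4) := min_le_left _ _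
  have hc62 : c6 ≤ c1 * κ / 2 := min_le_right _ _
  refine ⟨c6, hc6, max X1 (max 196 (14 * n0)), ?_⟩
  intro N hN S hS hScard
  have hN1 : X1 ≤ N := le_trans (le_max_left _ _) hN
  have hN2 : 196 ≤ N := le_trans (le_trans (le_max_left _ _) (le_max_right _ _)) hN
  have hN3 : 14 * n0 ≤ N := le_trans (le_trans (le_max_right _ _) (le_max_right _ _)) hN
  have hlow := hlo N hN1 S (fun P hP => ⟨(hS P hP).1, (hS P hP).2.1, (hS P hP).2.2.1⟩) hScard
  set T : Finset (Fin 4 → ℤ) := S.biUnion rp with hT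
  set A : Finset ℕ := T.image nu with hA
  have hNr : (196 : ℝ) ≤ N := by exact_mod_cast hN2
  have hNpos : (0 : ℝ) < N := by linarith
  have hlogN : 0 < Real.log N := Real.log_pos (by linarith)
  have hP7 : ∀ P ∈ S, 7 < P := fun P hP => by have := (hS P hP).2.1; omega
  -- facts about the elements of `T`
  have hTm : ∀ X ∈ T, ∃ P ∈ S, qf X = P := by
    intro X hX
    rw [hT, Finset.mem_biUnion] at hX
    obtain ⟨P, hP, hXP⟩ := hX
    exact ⟨P, hP, mem_rp P X hXP⟩
  have hAm : ∀ n ∈ A, ∃ X ∈ T, nu X = n := by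
    intro n hn
    rw [hA, Finset.mem_image] at hn
    exact hn
  have hAN : ∀ n ∈ A, 1 ≤ n ∧ n ≤ N ∧ Odd n ∧ N < 14 * n := by
    intro n hn
    obtain ⟨X, hX, rfl⟩ := hAm n hn
    obtain ⟨P, hP, hXP⟩ := hTm X hX
    obtain ⟨h1, h2, h3, -⟩ := facts P (hS P hP).1 (hP7 P hP) X hXP
    have h4 := (hS P hP).2.1
    have h5 := (hS P hP).2.2.1
    refine ⟨by omega, by omega, h1, by omega⟩
  -- the number of elements of `T`
  have hTcard : (∑ P ∈ S, ((rp P).card : ℝ)) = T.card := by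
    rw [hT, Finset.card_biUnion]
    · push_cast; rfl
    · intro P hP Q hQ hPQ
      refine Finset.disjoint_left.2 ?_
      intro X h1 h2
      have e1 := mem_rp P X h1
      have e2 := mem_rp Q X h2
      apply hPQ
      have : (P : ℤ) = Q := by rw [← e1, ← e2]
      exact_mod_cast this
  have hfib : (T.card : ℝ) = ∑ n ∈ A, (((T.filter (fun X => nu X = n)).card : ℕ) : ℝ) := by
    rw [Finset.card_eq_sum_card_image nu T]
    push_cast
    rfl
  -- the bound for the fibres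
  have hfb : ∀ n ∈ A, (((T.filter (fun X => nu X = n)).card : ℕ) : ℝ) ≤
      2 ^ k * C2 / Real.log N ^ k * ((((n : ℝ) / Nat.totient n) ^ k) * ((reps n).card : ℝ)) := by
    intro n hn
    obtain ⟨h1, h2, h3, h4⟩ := hAN n hn
    have hn0 : n0 ≤ n := by omega
    have hnr : (1 : ℝ) ≤ n := by exact_mod_cast h1
    have hsub : T.filter (fun X => nu X = n) ⊆ preps n := by
      intro X hX
      rw [Finset.mem_filter] at hX
      obtain ⟨P, hP, hXP⟩ := hTm X hX.1
      have := (facts P (hS P hP).1 (hP7 P hP) X hXP).2.2.2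
      rwa [hX.2] at this
    have hr : ∀ X ∈ T.filter (fun X => nu X = n), ∀ l : ℕ, l.Prime → (l : ℝ) ≤ (n : ℝ) ^ η →
        ¬ (l : ℤ) ∣ fU U X := by
      intro X hX l hl hln hd
      rw [Finset.mem_filter] at hX
      obtain ⟨P, hP, hXP⟩ := hTm X hX.1
      have hlp : Prime (l : ℤ) := Nat.prime_iff_prime_int.1 hl
      unfold fU at hd
      obtain ⟨u, hu, hud⟩ := (hlp.dvd_finsetProd_iff _).1 hd
      have hpf : pf X = P := hXP
      rw [hpf] at hud
      refine (hS P hP).2.2.2 u hu l hl ?_ hud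
      refine hln.trans ?_
      exact Real.rpow_le_rpow (by positivity) (by exact_mod_cast h2) hη.le
    have hb := hup n h3 hn0 _ hsub hr
    have hpr : ((preps n).card : ℝ) ≤ (reps n).card := by
      exact_mod_cast Finset.card_le_card (by unfold preps; exact Finset.filter_subset _ _)
    have h4r : (N : ℝ) < 14 * n := by exact_mod_cast h4
    have hlog : Real.log N ≤ 2 * Real.log n := by
      have hN14 : (N : ℝ) ≤ (n : ℝ) ^ 2 := by
        have h14 : (14 : ℝ) ≤ n := by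
          have : 14 ≤ n := by omega
          exact_mod_cast this
        nlinarith
      calc Real.log N ≤ Real.log ((n : ℝ) ^ 2) := Real.log_le_log hNpos hN14
        _ = 2 * Real.log n := by rw [Real.log_pow]; norm_num
    have hlogn : 0 < Real.log n := by linarith
    have hinv : 1 / Real.log n ^ k ≤ 2 ^ k / Real.log N ^ k := by
      rw [div_le_div_iff₀ (by positivity) (by positivity), one_mul, ← mul_pow]
      exact pow_le_pow_left₀ hlogN.le hlog k
    have hφ : 0 ≤ ((n : ℝ) / Nat.totient n) ^ k := by positivity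
    calc (((T.filter (fun X => nu X = n)).card : ℕ) : ℝ)
        ≤ C2 * ((n : ℝ) / Nat.totient n) ^ k * ((preps n).card : ℝ) / Real.log n ^ k := hb
      _ = C2 * ((n : ℝ) / Nat.totient n) ^ k * ((preps n).card : ℝ) * (1 / Real.log n ^ k) := by ring
      _ ≤ C2 * ((n : ℝ) / Nat.totient n) ^ k * ((reps n).card : ℝ) * (2 ^ k / Real.log N ^ k) := by
          apply mul_le_mul _ hinv (by positivity) (by positivity)
          exact mul_le_mul_of_nonneg_left hpr (by positivity)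
      _ = _ := by ring
  set τ : ℝ := c1 * κ / 2 * N / Real.log N ^ k with hτ
  have hτ0 : 0 ≤ τ := by positivity
  set A' : Finset ℕ := A.filter (fun n => τ ≤ (((T.filter (fun X => nu X = n)).card : ℕ) : ℝ)) with hA'
  have hA'A : A' ⊆ A := Finset.filter_subset _ _
  have hAcard : (A.card : ℝ) ≤ N := by
    have h1 : A ⊆ Icc 1 N := by
      intro n hn
      rw [Finset.mem_Icc]
      exact ⟨(hAN n hn).1, (hAN n hn).2.1⟩
    have h2 := Finset.card_le_card h1
    rw [Nat.card_Icc] at h2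
    have h3 : A.card ≤ N := by omega
    exact_mod_cast h3
  have hsplit : c1 * N * S.card ≤
      ∑ n ∈ A', (((T.filter (fun X => nu X = n)).card : ℕ) : ℝ) + N * τ := by
    calc c1 * N * S.card ≤ ∑ P ∈ S, ((rp P).card : ℝ) := hlow
      _ = ∑ n ∈ A, (((T.filter (fun X => nu X = n)).card : ℕ) : ℝ) := by rw [hTcard, hfib]
      _ ≤ ∑ n ∈ A, ((if τ ≤ (((T.filter (fun X => nu X = n)).card : ℕ) : ℝ) then
            (((T.filter (fun X => nu X = n)).card : ℕ) : ℝ) else 0) + τ) := by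
          apply Finset.sum_le_sum
          intro n _
          split_ifs with h
          · linarith
          · linarith [not_le.1 h]
      _ = ∑ n ∈ A', (((T.filter (fun X => nu X = n)).card : ℕ) : ℝ) + A.card * τ := by
          rw [Finset.sum_add_distrib, hA', Finset.sum_filter, Finset.sum_const, nsmul_eq_mul]
      _ ≤ _ := by gcongr
  have hsum : c1 * κ / 2 * (N : ℝ) ^ 2 / Real.log N ^ k ≤ 2 ^ k * C2 / Real.log N ^ k *
      ∑ n ∈ A', (((n : ℝ) / Nat.totient n) ^ k) * ((reps n).card : ℝ) := by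
    have e1 : c1 * N * (κ * N / Real.log N ^ k) ≤ c1 * N * S.card := by gcongr
    have e2 : c1 * N * (κ * N / Real.log N ^ k) - N * τ = c1 * κ / 2 * (N : ℝ) ^ 2 / Real.log N ^ k := by
      rw [hτ]; ring
    have e3 : ∑ n ∈ A', (((T.filter (fun X => nu X = n)).card : ℕ) : ℝ) ≤ 2 ^ k * C2 / Real.log N ^ k *
        ∑ n ∈ A', (((n : ℝ) / Nat.totient n) ^ k) * ((reps n).card : ℝ) := by
      rw [Finset.mul_sum]
      exact Finset.sum_le_sum fun n hn => hfb n (hA'A hn)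
    linarith
  have hmain : c5 * (N : ℝ) ^ 2 ≤
      ∑ n ∈ A', (((n : ℝ) / Nat.totient n) ^ k) * ((reps n).card : ℝ) := by
    set Y : ℝ := ∑ n ∈ A', (((n : ℝ) / Nat.totient n) ^ k) * ((reps n).card : ℝ) with hY
    have e2 : c1 * κ / 2 * (N : ℝ) ^ 2 ≤ 2 ^ k * C2 * Y := by
      have e3 : (c1 * κ / 2 * (N : ℝ) ^ 2) / Real.log N ^ k ≤ (2 ^ k * C2 * Y) / Real.log N ^ k := by
        calc (c1 * κ / 2 * (N : ℝ) ^ 2) / Real.log N ^ k
            ≤ 2 ^ k * C2 / Real.log N ^ k * Y := hsum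
          _ = _ := by ring
      exact (div_le_div_iff_of_pos_right (by positivity)).1 e3
    rw [hc5def, div_mul_eq_mul_div, div_le_iff₀ (by positivity)]
    linarith
  have hA1 : ∑ n ∈ A', ((reps n).card : ℝ) ^ 2 ≤ (8 * C3) * (N : ℝ) ^ 3 := by
    calc ∑ n ∈ A', ((reps n).card : ℝ) ^ 2 ≤ ∑ n ∈ range (N + 1), ((reps n).card : ℝ) ^ 2 := by
          apply Finset.sum_le_sum_of_subset_of_nonneg
          · intro n hn
            rw [Finset.mem_range]
            have := (hAN n (hA'A hn)).2.1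
            omega
          · intro _ _ _; positivity
      _ ≤ C3 * ((N : ℝ) + 1) ^ 3 := hm2 N
      _ ≤ C3 * (2 * (N : ℝ)) ^ 3 := by gcongr; linarith
      _ = _ := by ring
  have hA2 : ∑ n ∈ A', ((((n : ℝ) / Nat.totient n) ^ k) ^ 2) ^ 2 ≤ C4 * (N : ℝ) := by
    calc ∑ n ∈ A', ((((n : ℝ) / Nat.totient n) ^ k) ^ 2) ^ 2
        = ∑ n ∈ A', ((n : ℝ) / Nat.totient n) ^ (4 * k) := by
          apply Finset.sum_congr rfl
          intro n _
          rw [← pow_mul, ← pow_mul]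
          congr 1
          ring
      _ ≤ ∑ n ∈ Icc 1 N, ((n : ℝ) / Nat.totient n) ^ (4 * k) := by
          apply Finset.sum_le_sum_of_subset_of_nonneg
          · intro n hn
            rw [Finset.mem_Icc]
            exact ⟨(hAN n (hA'A hn)).1, (hAN n (hA'A hn)).2.1⟩
          · intro _ _ _; positivity
      _ ≤ C4 * N := hph N
  refine ⟨A', ?_, ?_⟩
  · have := final_ineq A' (fun n => ((n : ℝ) / Nat.totient n) ^ k) (fun n => ((reps n).card : ℝ)) N c5
      (8 * C3) C4 hNpos hc5 (by positivity) hC4 (fun n => by positivity) hmain hA1 hA2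
    exact le_trans (by gcongr) this
  · intro n hn
    obtain ⟨h1, h2, h3, h4⟩ := hAN n (hA'A hn)
    refine ⟨h1, h2, h3, T.filter (fun X => nu X = n), ?_, ?_⟩
    · have h5 : τ ≤ (((T.filter (fun X => nu X = n)).card : ℕ) : ℝ) := by
        rw [hA', Finset.mem_filter] at hn
        exact hn.2
      refine le_trans ?_ h5
      rw [hτ]
      gcongr
    · intro X hX
      rw [Finset.mem_filter] at hX
      obtain ⟨P, hP, hXP⟩ := hTm X hX.1
      refine ⟨P, hP, ?_, hXP.symm⟩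
      rw [← hX.2, nu_cast, Fin.sum_univ_four]

end Pool.Agent.NH18.PC
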