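import Pool.Agent.TH882.D4
import Pool.Agent.NH18.PC.A5

/-!
# Clusters of primes and the transference
-/

set_option autoImplicit false
open Finset

namespace Pool.Agent.NH18.PC

open Pool.Agent.W65.FS
open Pool.Agent.R496.FP
open Pool.Agent.H361R2.PP
open Pool.Agent.W70.HR
open Pool.Agent.TH882.UB
open Pool.Agent.TH882.HE
open Pool.Agent.TH882.AG
open Pool.Agent.TH882.DD

lemma adm_two : Adm {(-2 : ℤ)} := by
  intro l hl
  have hlp : Prime (l : ℤ) := Nat.prime_iff_prime_int.1 hl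
  refine ⟨1, fun h => hlp.not_isUnit (isUnit_of_dvd_one h), ?_⟩
  intro a ha h
  rw [mem_singleton] at ha
  rw [ha] at h
  have h1 : (l : ℤ) ∣ 1 := by
    have h2 := (dvd_neg (a := (l : ℤ)) (b := 1 + -2)).2 h
    have h3 : -((1 : ℤ) + -2) = 1 := by norm_num
    rwa [h3] at h2
  exact hlp.not_isUnit (isUnit_of_dvd_one h1)

/-- the conclusion of the transference with given constants -/
def TRc (U : Finset ℤ) (η κ c : ℝ) (N0 : ℕ) : Prop := ∀ N : ℕ,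
    N0 ≤ N → ∀ S : Finset ℕ, (∀ P ∈ S, P.Prime ∧ N < 2 * P ∧ P ≤ N ∧
      ∀ u ∈ U, ∀ l : ℕ, l.Prime → (l : ℝ) ≤ (N : ℝ) ^ η → ¬ (l : ℤ) ∣ (P : ℤ) + u) →
    κ * N / Real.log N ^ U.card ≤ S.card → ∃ A : Finset ℕ, c * N ≤ (A.card : ℝ) ∧
    ∀ n ∈ A, 1 ≤ n ∧ n ≤ N ∧ Odd n ∧ ∃ R : Finset (Fin 4 → ℤ),
    c * N / Real.log N ^ U.card ≤ (R.card : ℝ) ∧ ∀ X ∈ R, ∃ P ∈ S,
    (n : ℤ) = X 0 ^ 2 + X 1 ^ 2 + X 2 ^ 2 + X 3 ^ 2 ∧
    (P : ℤ) = X 0 ^ 2 + 3 * X 1 ^ 2 + 5 * X 2 ^ 2 + 7 * X 3 ^ 2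

lemma TRc_mono {U : Finset ℤ} {η κ c c' : ℝ} {N0 N0' : ℕ} (h : TRc U η κ c N0) (hc : c' ≤ c)
    (hN : N0 ≤ N0') : TRc U η κ c' N0' := by
  intro N hN' S hS hSc
  obtain ⟨A, hA, hA2⟩ := h N (hN.trans hN') S hS hSc
  have hNr : (0 : ℝ) ≤ N := Nat.cast_nonneg N
  have hl : 0 ≤ Real.log N ^ U.card := pow_nonneg (Real.log_natCast_nonneg N) _
  refine ⟨A, (mul_le_mul_of_nonneg_right hc hNr).trans hA, ?_⟩
  intro n hn
  obtain ⟨h1, h2, h3, R, hR, hR2⟩ := hA2 n hn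
  exact ⟨h1, h2, h3, R, (div_le_div_of_nonneg_right
    (mul_le_mul_of_nonneg_right hc hNr) hl).trans hR, hR2⟩

/-- a uniform version of the transference for finitely many sets of shifts -/
lemma tr_unif {ι : Type} (I : Finset ι) (V : ι → Finset ℤ) (η κ : ℝ)
    (h : ∀ i ∈ I, ∃ c : ℝ, 0 < c ∧ ∃ N0 : ℕ, TRc (V i) η κ c N0) :
    ∃ c : ℝ, 0 < c ∧ ∃ N0 : ℕ, ∀ i ∈ I, TRc (V i) η κ c N0 := by
  classical
  induction I using Finset.induction_on with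
  | empty => exact ⟨1, one_pos, 0, fun i hi => absurd hi (notMem_empty i)⟩
  | insert a I _ ih =>
    obtain ⟨c1, hc1, N1, h1⟩ := ih (fun i hi => h i (mem_insert_of_mem hi))
    obtain ⟨c2, hc2, N2, h2⟩ := h a (mem_insert_self a I)
    refine ⟨min c1 c2, lt_min hc1 hc2, max N1 N2, ?_⟩
    intro i hi
    rw [mem_insert] at hi
    rcases hi with rfl | hi
    · exact TRc_mono h2 (min_le_right _ _) (le_max_right _ _)
    · exact TRc_mono (h1 i hi) (min_le_left _ _) (le_max_left _ _)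

/-- the representations that start from a cluster of primes -/
def CLU (m : ℕ) : Prop := ∃ η : ℝ, 0 < η ∧ ∃ r C E : ℕ, ∃ c : ℝ, 0 < c ∧ ∃ N0 : ℕ,
  ∀ N : ℕ, N0 ≤ N → ∃ D : Finset ℕ, D ⊆ Icc 1 C ∧ D.card = m ∧ ∃ A : Finset ℕ,
  c * N ≤ (A.card : ℝ) ∧ ∀ n ∈ A, 1 ≤ n ∧ n ≤ N ∧ Odd n ∧ ∃ R : Finset (Fin 4 → ℤ),
  c * N / Real.log N ^ E ≤ (R.card : ℝ) ∧ ∀ X ∈ R, ∃ p : ℕ,
  (n : ℤ) = X 0 ^ 2 + X 1 ^ 2 + X 2 ^ 2 + X 3 ^ 2 ∧
  (p : ℤ) = X 0 ^ 2 + 3 * X 1 ^ 2 + 5 * X 2 ^ 2 + 7 * X 3 ^ 2 ∧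
  ∀ d ∈ insert 0 D, d + 2 < p ∧ (p - d).Prime ∧ (p - d - 2).primeFactorsList.length ≤ r ∧
    ∀ l : ℕ, l.Prime → l ∣ p - d - 2 → (n : ℝ) ^ η < l

theorem clu (hFA : FA) (hEX : EX) (hMI : MI) (hMA : MA) (hSG : SG) (hM2 : M2) (m : ℕ) : CLU m := by
  classical
  obtain ⟨K, hK, δ, hδ, hδ1, c, hc, X1, h1⟩ := popular {(-2 : ℤ)} adm_two m
  set T : ℕ := 4 * (m + 1) with hTd
  set U := Up {(-2 : ℤ)} T K with hU
  set L : ℕ := U.card with hL
  set A0 : ℕ := U.sup id with hA0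
  have hUA : ∀ u ∈ U, u ≤ A0 := fun u hu => Finset.le_sup (f := id) hu
  obtain ⟨w0, δ', -, -, C, hC, X2, h2⟩ := R_upper L A0 δ hδ hδ1
  obtain ⟨X3, h3⟩ := rough_ap δ hδ hδ1
  obtain ⟨X4, h4⟩ := JJ_size δ hδ hδ1 0 0 (by simp)
  set κ : ℝ := c / (3 * C ^ L) with hκ
  have hκ0 : 0 < κ := by positivity
  set V : ℕ → Finset ℤ := fun h => U.image (fun u : ℕ => (u : ℤ) - (h : ℤ)) with hV
  have hVc : ∀ h, (V h).card = L := by
    intro h
    rw [hV, hL]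
    apply card_image_of_injective
    intro a b hab
    simp only at hab
    omega
  obtain ⟨c', hc', N1, hTR⟩ := tr_unif U V (δ / 4) κ (fun h _ => by
    obtain ⟨c0, hc0, N0, h0⟩ := tr hFA hEX hMI hMA hSG hM2 (V h) (δ / 4) κ (by positivity) hκ0
    exact ⟨c0, hc0, N0, h0⟩)
  refine ⟨δ / 4, by positivity, ⌊4 / δ⌋₊, A0, L, c' / 2, by positivity,
    4 * (X1 + X2 + X3 + X4 + A0 + N1 + 10), ?_⟩
  intro N hN
  set X : ℕ := (N - A0) / 2 with hXd
  have hX1 : X1 ≤ X := by omega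
  have hX2 : X2 ≤ X := by omega
  have hX3 : X3 ≤ X := by omega
  have hX4 : X4 ≤ X := by omega
  have hXA : A0 + 4 ≤ X := by omega
  have hX0 : (0 : ℝ) < X := by
    have : 0 < X := by omega
    exact_mod_cast this
  have hXr4 : (4 : ℝ) ≤ X := by
    have : 4 ≤ X := by omega
    exact_mod_cast this
  obtain ⟨Q, hQ, hQc⟩ := h1 X hX1
  unfold Pat at hQ
  rw [mem_filter, mem_powerset] at hQ
  obtain ⟨hQs, hQcard⟩ := hQ
  have hQne : Q.Nonempty := by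
    rw [← card_pos]
    omega
  have hQH : ∀ h ∈ Q, ∃ g i, h = Hp {(-2 : ℤ)} T K g i := by
    intro h hh
    have := hQs hh
    rw [mem_image] at this
    obtain ⟨y, -, rfl⟩ := this
    exact ⟨y.1, y.2, rfl⟩
  have hQU : ∀ h ∈ Q, h ∈ U := by
    intro h hh
    obtain ⟨g, i, rfl⟩ := hQH h hh
    exact Hp_mem _ T K g i
  have hQU2 : ∀ h ∈ Q, 2 < h ∧ h - 2 ∈ U := by
    intro h hh
    obtain ⟨g, i, rfl⟩ := hQH h hh
    have e1 := Hpa_pos {(-2 : ℤ)} T K g i (-2) (mem_singleton_self _)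
    have e2 := Hpa_mem {(-2 : ℤ)} T K g i (-2) (mem_singleton_self _)
    have e3 : ((Hp {(-2 : ℤ)} T K g i : ℤ) + -2).toNat = Hp {(-2 : ℤ)} T K g i - 2 := by omega
    rw [e3] at e2
    exact ⟨by omega, e2⟩
  set h0 : ℕ := Q.max' hQne with hh0
  have hh0Q : h0 ∈ Q := max'_mem Q hQne
  have hh0U : h0 ∈ U := hQU h0 hh0Q
  have hh0A : h0 ≤ A0 := hUA _ hh0U
  have hh02 := hQU2 h0 hh0Q
  set D : Finset ℕ := (Q.erase h0).image (fun h => h0 - h) with hD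
  have hDlt : ∀ h ∈ Q.erase h0, h < h0 := by
    intro h hh
    have h4 := le_max' Q h (mem_of_mem_erase hh)
    have h5 := ne_of_mem_erase hh
    omega
  set M : ℕ := 2 * X + h0 with hM
  have hMN : M ≤ N := by omega
  have hM2' : N ≤ 2 * M := by omega
  have hMX : M ≤ 3 * X := by omega
  have hMr : (M : ℝ) ≤ 3 * X := by exact_mod_cast hMX
  have hXM : (X : ℝ) ≤ M := by
    have : X ≤ M := by omega
    exact_mod_cast this
  have hM0 : (0 : ℝ) < M := by linarith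
  have hlX : 0 < Real.log X := Real.log_pos (by linarith)
  have hlXM : Real.log X ≤ Real.log M := Real.log_le_log hX0 hXM
  set S : Finset ℕ := (AQ δ X (Hp {(-2 : ℤ)} T K) U Q).image (fun n => n + h0) with hS
  have hrough : ∀ n ∈ AQ δ X (Hp {(-2 : ℤ)} T K) U Q, ∀ u ∈ U, ∀ l : ℕ, l.Prime →
      (l : ℝ) ≤ (M : ℝ) ^ (δ / 4) → ¬ l ∣ n + u := by
    intro n hn u hu l hl hlM
    apply AQ_Ro hn u hu l hl
    obtain ⟨-, -, -, hsz⟩ := h4 X hX4
    have e1 : (M : ℝ) ^ (δ / 4) < (X : ℝ) ^ (δ / 2) := by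
      calc (M : ℝ) ^ (δ / 4) ≤ (3 * (X : ℝ)) ^ (δ / 4) :=
            Real.rpow_le_rpow hM0.le hMr (by positivity)
        _ < ((X : ℝ) ^ (2 : ℕ)) ^ (δ / 4) := by
            apply Real.rpow_lt_rpow (by positivity) _ (by positivity)
            nlinarith
        _ = (X : ℝ) ^ (δ / 2) := by
            rw [← Real.rpow_natCast, ← Real.rpow_mul hX0.le]
            congr 1
            push_cast
            ring
    have e2 : (l : ℝ) < ((2 ^ 2 ^ JJ δ X : ℕ) : ℝ) := lt_of_lt_of_le (lt_of_le_of_lt hlM e1) hsz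
    exact_mod_cast e2
  have hAQ : ∀ n ∈ AQ δ X (Hp {(-2 : ℤ)} T K) U Q, X ≤ n ∧ n < 2 * X ∧ ∀ h ∈ Q, (n + h).Prime := by
    intro n hn
    unfold AQ at hn
    rw [mem_filter, mem_Ico] at hn
    exact ⟨hn.1.1, hn.1.2, hn.2.2.2⟩
  have hScard : κ * M / Real.log M ^ (V h0).card ≤ (S.card : ℝ) := by
    have e1 : S.card = (AQ δ X (Hp {(-2 : ℤ)} T K) U Q).card :=
      card_image_of_injective _ (fun a b hab => by simpa using hab)
    rw [e1, hVc]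
    refine le_trans ?_ hQc
    obtain ⟨hF0, hFl, -⟩ := h2 X hX2
    have e2 : (1 / Real.log X) ^ L ≤ (C * TH882.DD.FF δ X) ^ L := pow_le_pow_left₀ (by positivity) hFl L
    rw [mul_pow, div_pow, one_pow] at e2
    calc κ * M / Real.log M ^ L ≤ κ * (3 * X) / Real.log X ^ L := by
          apply div_le_div₀ (by positivity) (mul_le_mul_of_nonneg_left hMr hκ0.le) (by positivity)
          exact pow_le_pow_left₀ hlX.le hlXM L
      _ = c * X / C ^ L * (1 / Real.log X ^ L) := by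
          rw [hκ]
          field_simp
      _ ≤ c * X / C ^ L * (C ^ L * TH882.DD.FF δ X ^ L) := mul_le_mul_of_nonneg_left e2 (by positivity)
      _ = c * (X * TH882.DD.FF δ X ^ L) := by field_simp
  obtain ⟨A, hA, hA2⟩ := hTR h0 hh0U M (by omega) S (by
    intro P hP
    rw [hS, mem_image] at hP
    obtain ⟨n, hn, rfl⟩ := hP
    obtain ⟨a1, a2, a3⟩ := hAQ n hn
    refine ⟨a3 h0 hh0Q, by omega, by omega, ?_⟩
    intro v hv l hl hlM hd
    rw [hV, mem_image] at hv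
    obtain ⟨u, hu, rfl⟩ := hv
    apply hrough n hn u hu l hl hlM
    have e1 : (((n + h0 : ℕ) : ℤ)) + ((u : ℤ) - h0) = ((n + u : ℕ) : ℤ) := by
      push_cast
      ring
    rw [e1] at hd
    exact_mod_cast hd) hScard
  refine ⟨D, ?_, ?_, A, ?_, ?_⟩
  · intro d hd
    rw [hD, mem_image] at hd
    obtain ⟨h, hh, rfl⟩ := hd
    rw [mem_Icc]
    have h4 := hDlt h hh
    omega
  · rw [hD, card_image_of_injOn, card_erase_of_mem hh0Q, hQcard]
    · omega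
    · intro h hh h' hh' he
      rw [mem_coe] at hh hh'
      have h4 := hDlt h hh
      have h5 := hDlt h' hh'
      simp only at he
      omega
  · refine le_trans ?_ hA
    have : (N : ℝ) ≤ 2 * M := by exact_mod_cast hM2'
    nlinarith
  intro n hn
  obtain ⟨b1, b2, b3, R, hR, hR2⟩ := hA2 n hn
  refine ⟨b1, b2.trans hMN, b3, R, ?_, ?_⟩
  · refine le_trans ?_ hR
    rw [hVc]
    have e1 : (N : ℝ) ≤ 2 * M := by exact_mod_cast hM2'
    have e2 : (M : ℝ) ≤ N := by exact_mod_cast hMN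
    have e3 : Real.log M ≤ Real.log N := Real.log_le_log hM0 e2
    apply div_le_div₀ (by positivity) _ (pow_pos (lt_of_lt_of_le hlX hlXM) L)
    · exact pow_le_pow_left₀ (hlX.le.trans hlXM) e3 L
    · nlinarith
  intro Y hY
  obtain ⟨P, hP, hY1, hY2⟩ := hR2 Y hY
  rw [hS, mem_image] at hP
  obtain ⟨n', hn', rfl⟩ := hP
  refine ⟨n' + h0, hY1, hY2, ?_⟩
  obtain ⟨a1, a2, a3⟩ := hAQ n' hn'
  -- almost primality
  have hn2 := hn'
  unfold AQ at hn2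
  rw [mem_filter] at hn2
  obtain ⟨-, hb, hH, -⟩ := hn2
  have hclu := cluster {(-2 : ℤ)} m K X (n' % Wm X) ⌊4 / δ⌋₊ A0 δ hUA (fun n'' hn'' u hu hr =>
    h3 X hX3 (n' % Wm X) n'' u (Nat.mod_lt _ (Wm_pos X)) hn''
      (by
        unfold BC at hb
        rw [mem_filter] at hb
        exact hb.2 u hu) (by have := hUA u hu; omega) hr) n' hH
  intro d hd
  have hcase : ∃ q ∈ Q, q ≤ h0 ∧ d = h0 - q := by
    rw [mem_insert] at hd
    rcases hd with rfl | hd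
    · exact ⟨h0, hh0Q, le_rfl, by omega⟩
    · rw [hD, mem_image] at hd
      obtain ⟨q, hq, rfl⟩ := hd
      exact ⟨q, mem_of_mem_erase hq, (hDlt q hq).le, rfl⟩
  obtain ⟨q, hq, hqh, rfl⟩ := hcase
  have hq2 := hQU2 q hq
  have e1 : n' + h0 - (h0 - q) = n' + q := by omega
  rw [e1]
  obtain ⟨g, i, hqe⟩ := hQH q hq
  have hap := hclu.1 g i (-2) (mem_singleton_self _)
  rw [← hqe] at hap
  have e2 : (((n' + q : ℕ) : ℤ) + -2).toNat = n' + q - 2 := by omega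
  rw [e2] at hap
  refine ⟨by omega, a3 q hq, ?_, ?_⟩
  · rw [← ArithmeticFunction.cardFactors_apply]
    exact hap.2
  · intro l hl hld
    by_contra hcon
    push Not at hcon
    have e3 : n' + q - 2 = n' + (q - 2) := by omega
    rw [e3] at hld
    apply hrough n' hn' (q - 2) hq2.2 l hl _ hld
    refine hcon.trans ?_
    exact Real.rpow_le_rpow (by positivity) (by exact_mod_cast b2) (by positivity)

end Pool.Agent.NH18.PC
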